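import Mathlib

/-!
Block D4 of MP_986e36_gt (helper99's project): closed subgroups of a finite dimensional space
containing a cocompact countable subgroup.
-/

open Set Metric Filter Topology

namespace Helper99.BQ

section Lat
variable {W : Type*} [NormedAddCommGroup W] [NormedSpace ℝ W] [FiniteDimensional ℝ W]

/-- D4a -/
theorem exists_recurrence (L : AddSubgroup W) {R₀ : ℝ} (hL : ∀ x : W, ∃ l ∈ L, ‖x - l‖ ≤ R₀)
    (x : W) {ε : ℝ} (hε : 0 < ε) (T : ℝ) : ∃ t : ℝ, T ≤ t ∧ ∃ l ∈ L, ‖t • x - l‖ < ε := by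
  have : ProperSpace W := FiniteDimensional.proper ℝ W
  set T' : ℝ := max T 1 with hT'
  have hT1 : (1 : ℝ) ≤ T' := le_max_right _ _
  choose l hl hlx using fun n : ℕ => hL (((n : ℝ) * T') • x)
  have hr : ∀ n : ℕ, ((n : ℝ) * T') • x - l n ∈ closedBall (0 : W) R₀ := by
    intro n; rw [mem_closedBall_zero_iff]; exact hlx n
  obtain ⟨a, _, φ, hφ, hlim⟩ := (isCompact_closedBall (0 : W) R₀).tendsto_subseq hr
  have hc := hlim.cauchySeq
  rw [Metric.cauchySeq_iff] at hc
  obtain ⟨N, hN⟩ := hc ε hε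
  have h1 := hN (N + 1) (by omega) N (by omega)
  have hlt : φ N < φ (N + 1) := hφ (Nat.lt_succ_self N)
  have hlt' : (φ N : ℝ) + 1 ≤ (φ (N + 1) : ℝ) := by exact_mod_cast hlt
  refine ⟨((φ (N + 1) : ℝ) - φ N) * T', ?_, l (φ (N + 1)) - l (φ N), L.sub_mem (hl _) (hl _), ?_⟩
  · calc T ≤ T' := le_max_left _ _
      _ = 1 * T' := (one_mul _).symm
      _ ≤ _ := mul_le_mul_of_nonneg_right (by linarith) (by linarith)
  · rw [dist_eq_norm] at h1
    have e : (((φ (N + 1) : ℝ) - φ N) * T') • x - (l (φ (N + 1)) - l (φ N)) =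
        ((φ (N + 1) : ℝ) * T') • x - l (φ (N + 1)) - (((φ N : ℝ) * T') • x - l (φ N)) := by
      rw [sub_mul, sub_smul]
      abel
    rw [e]
    exact h1

/-- the linear part of an additive subgroup -/
def linPart (S : AddSubgroup W) : Submodule ℝ W where
  carrier := {x | ∀ t : ℝ, t • x ∈ S}
  add_mem' := by
    intro a b ha hb t
    rw [smul_add]; exact S.add_mem (ha t) (hb t)
  zero_mem' := by intro t; rw [smul_zero]; exact S.zero_mem
  smul_mem' := by
    intro c x hx t
    rw [smul_smul]; exact hx _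

omit [FiniteDimensional ℝ W] in
theorem mem_linPart {S : AddSubgroup W} {x : W} : x ∈ linPart S ↔ ∀ t : ℝ, t • x ∈ S := Iff.rfl

omit [FiniteDimensional ℝ W] in
theorem linPart_le {S : AddSubgroup W} {x : W} (hx : x ∈ linPart S) : x ∈ S := by
  have := hx 1; rwa [one_smul] at this

/-- near `0`, a closed subgroup coincides with its linear part -/
theorem linPart_nhds (S : AddSubgroup W) (hS : IsClosed (S : Set W)) :
    ∃ ε > 0, ∀ x ∈ S, ‖x‖ < ε → x ∈ linPart S := by
  have : ProperSpace W := FiniteDimensional.proper ℝ W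
  by_contra hcon
  push Not at hcon
  have hcon' : ∀ n : ℕ, ∃ x ∈ S, ‖x‖ < 1 / ((n : ℝ) + 1) ∧ x ∉ linPart S := fun n =>
    hcon _ (by positivity)
  choose x hxS hxn hxP using hcon'
  obtain ⟨Q, hQ⟩ := Submodule.exists_isCompl (linPart S)
  let π : W →ₗ[ℝ] Q := Submodule.projectionOnto Q (linPart S) hQ.symm
  have hπc : Continuous π := LinearMap.continuous_of_finiteDimensional π
  set q : ℕ → W := fun n => (π (x n) : W) with hq
  have hqQ : ∀ n, q n ∈ Q := fun n => (π (x n)).2
  have hqP : ∀ n, x n - q n ∈ linPart S := by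
    intro n
    rw [← Submodule.ker_projectionOnto hQ.symm, LinearMap.mem_ker, map_sub, sub_eq_zero]
    exact (Submodule.projectionOnto_apply_left hQ.symm (π (x n))).symm
  have hqS : ∀ n, q n ∈ S := by
    intro n
    have := S.sub_mem (hxS n) (linPart_le (hqP n))
    simpa using this
  have hq0 : ∀ n, q n ≠ 0 := by
    intro n h0
    apply hxP n
    have := hqP n
    rwa [h0, sub_zero] at this
  have hx0 : Tendsto x atTop (𝓝 0) := by
    rw [tendsto_zero_iff_norm_tendsto_zero]
    exact squeeze_zero (fun n => norm_nonneg _) (fun n => (hxn n).le)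
      tendsto_one_div_add_atTop_nhds_zero_nat
  have hqlim : Tendsto (fun n => ‖q n‖) atTop (𝓝 0) := by
    have h1 : Tendsto (fun n => π (x n)) atTop (𝓝 (π 0)) := (hπc.tendsto 0).comp hx0
    rw [map_zero] at h1
    have h2 := tendsto_zero_iff_norm_tendsto_zero.1 h1
    simpa [hq] using h2
  set u : ℕ → W := fun n => (‖q n‖)⁻¹ • q n with hu
  have hqpos : ∀ n, 0 < ‖q n‖ := fun n => norm_pos_iff.2 (hq0 n)
  have hus : ∀ n, u n ∈ sphere (0 : W) 1 := by
    intro n
    rw [mem_sphere_zero_iff_norm, hu]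
    simp only [norm_smul, norm_inv, norm_norm]
    exact inv_mul_cancel₀ (hqpos n).ne'
  obtain ⟨a, ha, φ, hφ, hlim⟩ := (isCompact_sphere (0 : W) 1).tendsto_subseq hus
  have haQ : a ∈ Q := by
    have hQc : IsClosed (Q : Set W) := Submodule.closed_of_finiteDimensional Q
    exact hQc.mem_of_tendsto hlim (Eventually.of_forall fun n => Q.smul_mem _ (hqQ _))
  have haP : a ∈ linPart S := by
    intro t
    have h1 : Tendsto (fun n => (⌊t / ‖q (φ n)‖⌋ : ℤ) • q (φ n)) atTop (𝓝 (t • a)) := by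
      have h2 : Tendsto (fun n => t • u (φ n)) atTop (𝓝 (t • a)) := hlim.const_smul t
      have h3 : Tendsto (fun n => (⌊t / ‖q (φ n)‖⌋ : ℤ) • q (φ n) - t • u (φ n)) atTop (𝓝 0) := by
        rw [tendsto_zero_iff_norm_tendsto_zero]
        refine squeeze_zero (fun n => norm_nonneg _) (fun n => ?_) (hqlim.comp hφ.tendsto_atTop)
        simp only [Function.comp]
        have e1 : (⌊t / ‖q (φ n)‖⌋ : ℤ) • q (φ n) - t • u (φ n) =
            ((⌊t / ‖q (φ n)‖⌋ : ℝ) - t / ‖q (φ n)‖) • q (φ n) := by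
          rw [sub_smul, hu, Int.cast_smul_eq_zsmul]
          simp only [smul_smul]
          rw [div_eq_mul_inv]
        rw [e1, norm_smul, Real.norm_eq_abs]
        have e2 : |(⌊t / ‖q (φ n)‖⌋ : ℝ) - t / ‖q (φ n)‖| ≤ 1 := by
          rw [abs_sub_comm, abs_of_nonneg (sub_nonneg.2 (Int.floor_le _))]
          have := Int.lt_floor_add_one (t / ‖q (φ n)‖)
          linarith
        calc _ ≤ 1 * ‖q (φ n)‖ := mul_le_mul_of_nonneg_right e2 (norm_nonneg _)
          _ = _ := one_mul _
      have h4 := h3.add h2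
      simpa using h4
    exact hS.mem_of_tendsto h1 (Eventually.of_forall fun n => S.zsmul_mem (hqS _) _)
  have ha0 : a = 0 := by
    have := Submodule.mem_inf.2 ⟨haP, haQ⟩
    rw [hQ.inf_eq_bot] at this
    exact (Submodule.mem_bot ℝ).1 this
  rw [mem_sphere_zero_iff_norm, ha0, norm_zero] at ha
  exact zero_ne_one ha

/-- D4b -/
theorem exists_linear_parts (L : AddSubgroup W) {R₀ : ℝ} (hL : ∀ x : W, ∃ l ∈ L, ‖x - l‖ ≤ R₀)
    (hc : (L : Set W).Countable) :
    ∃ V : Set (Submodule ℝ W), V.Countable ∧ ∀ S : AddSubgroup W, IsClosed (S : Set W) → L ≤ S →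
      ∃ P ∈ V, (∀ x : W, x ∈ P ↔ ∀ t : ℝ, t • x ∈ S) ∧ ∃ ε > 0, ∀ x ∈ S, ‖x‖ < ε → x ∈ P := by
  refine ⟨(fun t : Set W => Submodule.span ℝ t) '' {t | t.Finite ∧ t ⊆ (L : Set W)},
    (Set.countable_ofPred_finite_subset hc).image _, ?_⟩
  intro S hS hLS
  obtain ⟨ε, hε, hnear⟩ := linPart_nhds S hS
  refine ⟨linPart S, ?_, fun x => mem_linPart, ε, hε, hnear⟩
  -- the linear part is spanned by its lattice points
  have hspan : Submodule.span ℝ ((linPart S : Set W) ∩ L) = linPart S := by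
    apply le_antisymm
    · exact Submodule.span_le.2 fun x hx => hx.1
    · intro Y hY
      have hcl : IsClosed (Submodule.span ℝ ((linPart S : Set W) ∩ L) : Set W) :=
        Submodule.closed_of_finiteDimensional _
      rw [← SetLike.mem_coe, ← hcl.closure_eq, Metric.mem_closure_iff]
      intro δ hδ
      obtain ⟨t, ht, l, hl, htl⟩ := exists_recurrence L hL Y (lt_min hε one_pos) (max (1 / δ) 1)
      have ht1 : 1 ≤ t := le_trans (le_max_right _ _) ht
      have htδ : 1 / δ ≤ t := le_trans (le_max_left _ _) ht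
      have htpos : 0 < t := by linarith
      have h1 : t • Y - l ∈ S := S.sub_mem (hY t) (hLS hl)
      have h2 : t • Y - l ∈ linPart S := hnear _ h1 (lt_of_lt_of_le htl (min_le_left _ _))
      have h3 : l ∈ linPart S := by
        have := (linPart S).sub_mem ((linPart S).smul_mem t hY) h2
        simpa using this
      refine ⟨t⁻¹ • l, Submodule.smul_mem _ _ (Submodule.subset_span ⟨h3, hl⟩), ?_⟩
      rw [dist_eq_norm]
      have e1 : Y - t⁻¹ • l = t⁻¹ • (t • Y - l) := by
        rw [smul_sub, smul_smul, inv_mul_cancel₀ htpos.ne', one_smul]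
      rw [e1, norm_smul, norm_inv, Real.norm_eq_abs, abs_of_pos htpos]
      have h4 : ‖t • Y - l‖ < 1 := lt_of_lt_of_le htl (min_le_right _ _)
      calc t⁻¹ * ‖t • Y - l‖ < t⁻¹ * 1 := mul_lt_mul_of_pos_left h4 (inv_pos.2 htpos)
        _ = 1 / t := by rw [mul_one, one_div]
        _ ≤ δ := by
          rw [div_le_iff₀ htpos]
          rw [div_le_iff₀ hδ] at htδ
          linarith
  obtain ⟨b, hb, hbs, hbi⟩ := exists_linearIndependent ℝ ((linPart S : Set W) ∩ L)
  exact ⟨b, ⟨hbi.setFinite, fun x hx => (hb hx).2⟩, by simp only [hbs, hspan]⟩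

/-- D4c: a finite dimensional real space is not a countable union of proper subspaces -/
theorem not_countable_union (V : Set (Submodule ℝ W)) (hV : V.Countable) (h : ∀ P ∈ V, P ≠ ⊤) :
    ∃ x : W, ∀ P ∈ V, x ∉ P := by
  have : ProperSpace W := FiniteDimensional.proper ℝ W
  let _ : MeasurableSpace W := borel W
  have _ : BorelSpace W := ⟨rfl⟩
  by_contra hcon
  push Not at hcon
  have h0 : (MeasureTheory.Measure.addHaar : MeasureTheory.Measure W) (⋃ P ∈ V, (P : Set W)) = 0 := by
    rw [MeasureTheory.measure_biUnion_null_iff hV]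
    intro P hP
    exact MeasureTheory.Measure.addHaar_submodule _ P (h P hP)
  have h1 : (⋃ P ∈ V, (P : Set W)) = univ := by
    rw [eq_univ_iff_forall]
    intro x
    obtain ⟨P, hP, hx⟩ := hcon x
    exact mem_biUnion hP hx
  rw [h1] at h0
  have h2 := (isOpen_univ : IsOpen (univ : Set W)).measure_pos
    (MeasureTheory.Measure.addHaar : MeasureTheory.Measure W) univ_nonempty
  exact h2.ne' h0

end Lat

end Helper99.BQ
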