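import Pool.Agent.Helper99.BQ.Defs

/-!
Blocks D1, D2, D3 of MP_986e36_gt (helper99's project): commuting one-parameter groups in a
compact group with a bi-invariant metric.
-/

open Set Metric Filter Topology

namespace Helper99.BQ

/-! ### basic facts -/

section Basic
variable {K : Type*} [Group K] [MetricSpace K]

theorem BiInv.dist_mul_mul (hK : BiInv K) (a b c d : K) :
    dist (a * b) (c * d) ≤ dist a c + dist b d := by
  calc dist (a * b) (c * d) ≤ dist (a * b) (c * b) + dist (c * b) (c * d) := dist_triangle _ _ _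
    _ = dist a c + dist b d := by rw [hK.right, hK.left]

theorem BiInv.dist_inv_inv (hK : BiInv K) (a b : K) : dist a⁻¹ b⁻¹ = dist a b := by
  have h1 : dist (a * a⁻¹ * b) (a * b⁻¹ * b) = dist a⁻¹ b⁻¹ := by
    rw [hK.right, hK.left]
  rw [← h1]
  rw [mul_inv_cancel, one_mul, inv_mul_cancel_right, dist_comm]

theorem BiInv.dist_eq (hK : BiInv K) (a b : K) : dist a b = dist 1 (a⁻¹ * b) := by
  rw [← hK.left a 1, mul_one, mul_inv_cancel_left]

theorem BiInv.dist_conj (hK : BiInv K) (g a b : K) :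
    dist (g * a * g⁻¹) (g * b * g⁻¹) = dist a b := by
  rw [hK.right, hK.left]

theorem BiInv.dist_pow (hK : BiInv K) (a b : K) (n : ℕ) :
    dist (a ^ n) (b ^ n) ≤ n * dist a b := by
  induction n with
  | zero => simp
  | succ n ih =>
    rw [pow_succ, pow_succ]
    calc dist (a ^ n * a) (b ^ n * b) ≤ dist (a ^ n) (b ^ n) + dist a b := hK.dist_mul_mul _ _ _ _
      _ ≤ n * dist a b + dist a b := by gcongr
      _ = ((n + 1 : ℕ) : ℝ) * dist a b := by push_cast; ring

theorem BiInv.continuous_conj (hK : BiInv K) (b : K) : Continuous fun k : K => k * b * k⁻¹ := by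
  have : LipschitzWith 2 fun k : K => k * b * k⁻¹ := by
    apply LipschitzWith.of_dist_le_mul
    intro x y
    calc dist (x * b * x⁻¹) (y * b * y⁻¹) ≤ dist (x * b) (y * b) + dist x⁻¹ y⁻¹ :=
          hK.dist_mul_mul _ _ _ _
      _ = dist x y + dist x y := by rw [hK.right, hK.dist_inv_inv]
      _ = ((2 : NNReal) : ℝ) * dist x y := by push_cast; ring
  exact this.continuous

variable {E : Type*} [NormedAddCommGroup E] [InnerProductSpace ℝ E]

theorem PreExp.exp_zero (e : PreExp K E) : e.exp 0 = 1 := by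
  have := e.add 0 0 0
  simp only [smul_zero] at this
  exact (left_eq_mul.1 this)

theorem PreExp.exp_neg (e : PreExp K E) (X : E) : e.exp (-X) = (e.exp X)⁻¹ := by
  have := e.add X 1 (-1)
  rw [add_neg_cancel, zero_smul, e.exp_zero, one_smul, neg_one_smul] at this
  exact (inv_eq_of_mul_eq_one_right this.symm).symm

theorem PreExp.exp_neg_smul (e : PreExp K E) (t : ℝ) (X : E) :
    e.exp ((-t) • X) = (e.exp (t • X))⁻¹ := by
  rw [neg_smul, e.exp_neg]

theorem PreExp.exp_nsmul (e : PreExp K E) (X : E) (n : ℕ) :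
    e.exp ((n : ℝ) • X) = e.exp X ^ n := by
  induction n with
  | zero => simp [e.exp_zero]
  | succ n ih =>
    rw [pow_succ, ← ih]
    have := e.add X n 1
    rw [one_smul] at this
    rw [← this]
    push_cast
    rfl

theorem PreExp.dist_one_exp (e : PreExp K E) (X : E) : dist 1 (e.exp X) ≤ ‖X‖ := by
  have := e.lip 0 X
  rwa [e.exp_zero, zero_sub, norm_neg] at this

theorem PreExp.exists_inj (e : PreExp K E) : ∃ ρ > 0, ∀ X Y : E, ‖X‖ < ρ → ‖Y‖ < ρ →
    e.exp X = e.exp Y → X = Y := by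
  obtain ⟨ρ, hρ, h⟩ := e.lower (1 / 2) (by norm_num)
  refine ⟨ρ, hρ, fun X Y hX hY hXY => ?_⟩
  have h1 := h X Y hX hY
  rw [hXY, dist_self] at h1
  have h2 : ‖X - Y‖ ≤ 0 := by linarith
  exact sub_eq_zero.1 (norm_le_zero_iff.1 h2)

end Basic

section D
variable {K : Type*} [Group K] [MetricSpace K] {E : Type*} [NormedAddCommGroup E]
  [InnerProductSpace ℝ E]

/-- D1 -/
theorem corner (hK : BiInv K) (e : PreExp K E) {X Y : E} (hX : ‖X‖ = 1) (hY : ‖Y‖ = 1) {s : ℝ}
    (hs : 0 < s) (h : 2 * s ≤ dist (e.exp (s • X) * e.exp (s • Y)) 1) : X = Y := by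
  -- corner at small scale
  have h1 : ∀ h' : ℝ, 0 < h' → h' ≤ s → 2 * h' ≤ dist (e.exp (h' • X) * e.exp (h' • Y)) 1 := by
    intro h' h0 hs'
    have e1 : e.exp (s • X) = e.exp ((s - h') • X) * e.exp (h' • X) := by
      rw [← e.add]; congr 2; ring
    have e2 : e.exp (s • Y) = e.exp (h' • Y) * e.exp ((s - h') • Y) := by
      rw [← e.add]; congr 2; ring
    have e3 : e.exp (s • X) * e.exp (s • Y) = e.exp ((s - h') • X) *
        (e.exp (h' • X) * e.exp (h' • Y)) * e.exp ((s - h') • Y) := by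
      rw [e1, e2]; group
    have b1 : dist (e.exp ((s - h') • X)) 1 ≤ s - h' := by
      rw [dist_comm]
      refine (e.dist_one_exp _).trans ?_
      rw [norm_smul, hX, mul_one, Real.norm_eq_abs, abs_of_nonneg (by linarith)]
    have b2 : dist (e.exp ((s - h') • Y)) 1 ≤ s - h' := by
      rw [dist_comm]
      refine (e.dist_one_exp _).trans ?_
      rw [norm_smul, hY, mul_one, Real.norm_eq_abs, abs_of_nonneg (by linarith)]
    have b3 : dist (e.exp (s • X) * e.exp (s • Y)) 1 ≤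
        dist (e.exp ((s - h') • X)) 1 + dist (e.exp (h' • X) * e.exp (h' • Y)) 1 +
          dist (e.exp ((s - h') • Y)) 1 := by
      rw [e3]
      have c1 := hK.dist_mul_mul (e.exp ((s - h') • X) * (e.exp (h' • X) * e.exp (h' • Y)))
        (e.exp ((s - h') • Y)) (1 * 1) 1
      have c2 := hK.dist_mul_mul (e.exp ((s - h') • X)) (e.exp (h' • X) * e.exp (h' • Y)) 1 1
      simp only [mul_one] at c1 c2
      linarith
    linarith
  have h2 : 2 ≤ ‖X + Y‖ := by
    apply le_of_forall_pos_le_add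
    intro ε hε
    obtain ⟨r, hr, hbch⟩ := e.bch ε hε
    set t : ℝ := min s (r / 2) with ht
    have ht0 : 0 < t := lt_min hs (by linarith)
    have htr : t < r := lt_of_le_of_lt (min_le_right _ _) (by linarith)
    have nX : ‖t • X‖ = t := by rw [norm_smul, hX, mul_one, Real.norm_eq_abs, abs_of_pos ht0]
    have nY : ‖t • Y‖ = t := by rw [norm_smul, hY, mul_one, Real.norm_eq_abs, abs_of_pos ht0]
    obtain ⟨Z, hZ, hZn⟩ := hbch (t • X) (t • Y) (by rw [nX]; exact htr) (by rw [nY]; exact htr)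
    have h3 := h1 t ht0 (min_le_left _ _)
    rw [← hZ, dist_comm] at h3
    have h4 := h3.trans (e.dist_one_exp Z)
    have h5 : ‖Z‖ ≤ ‖Z - t • X - t • Y‖ + ‖t • (X + Y)‖ := by
      have : Z = (Z - t • X - t • Y) + t • (X + Y) := by rw [smul_add]; abel
      calc ‖Z‖ = ‖(Z - t • X - t • Y) + t • (X + Y)‖ := by rw [← this]
        _ ≤ _ := norm_add_le _ _
    rw [nY] at hZn
    rw [norm_smul, Real.norm_eq_abs, abs_of_pos ht0] at h5
    have h6 : t * 2 ≤ t * (‖X + Y‖ + ε) := by nlinarith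
    exact le_of_mul_le_mul_left h6 ht0
  have h3 := parallelogram_law_with_norm ℝ X Y
  rw [hX, hY] at h3
  have h4 : ‖X - Y‖ * ‖X - Y‖ ≤ 0 := by nlinarith [norm_nonneg (X + Y)]
  have h5 : ‖X - Y‖ = 0 := by
    have := norm_nonneg (X - Y)
    nlinarith
  exact sub_eq_zero.1 (norm_eq_zero.1 h5)

/-- D3 -/
theorem exp_add_of_comm (hK : BiInv K) (e : PreExp K E) {X Y : E} (h : Comm e X Y) :
    e.exp (X + Y) = e.exp X * e.exp Y := by
  rw [← dist_le_zero]
  apply le_of_forall_pos_le_add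
  intro δ hδ
  rw [zero_add]
  -- choose ε with ε ‖Y‖ ≤ δ
  set ε : ℝ := δ / (‖Y‖ + 1) with hε
  have hY1 : 0 < ‖Y‖ + 1 := by positivity
  have hεpos : 0 < ε := div_pos hδ hY1
  obtain ⟨r, hr, hbch⟩ := e.bch ε hεpos
  obtain ⟨n, hn⟩ := exists_nat_gt (max (‖X‖ / r) (‖Y‖ / r))
  have hn1 : ‖X‖ / r < n := lt_of_le_of_lt (le_max_left _ _) hn
  have hn2 : ‖Y‖ / r < n := lt_of_le_of_lt (le_max_right _ _) hn
  have hnpos : (0 : ℝ) < n := lt_of_le_of_lt (by positivity) hn1
  have hs : ∀ Z : E, (n : ℝ) • ((n : ℝ)⁻¹ • Z) = Z := fun Z => by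
    rw [smul_smul, mul_inv_cancel₀ hnpos.ne', one_smul]
  have nX : ‖(n : ℝ)⁻¹ • X‖ < r := by
    rw [norm_smul, norm_inv, Real.norm_eq_abs, abs_of_pos hnpos, inv_mul_lt_iff₀ hnpos]
    rw [div_lt_iff₀ hr] at hn1
    linarith
  have nY : ‖(n : ℝ)⁻¹ • Y‖ < r := by
    rw [norm_smul, norm_inv, Real.norm_eq_abs, abs_of_pos hnpos, inv_mul_lt_iff₀ hnpos]
    rw [div_lt_iff₀ hr] at hn2
    linarith
  obtain ⟨Z, hZ, hZn⟩ := hbch _ _ nX nY
  have e1 : e.exp (X + Y) = e.exp ((n : ℝ)⁻¹ • (X + Y)) ^ n := by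
    rw [← e.exp_nsmul, hs]
  have e2 : e.exp X * e.exp Y = e.exp Z ^ n := by
    rw [hZ, Commute.mul_pow (h _ _), ← e.exp_nsmul, ← e.exp_nsmul, hs, hs]
  rw [e1, e2]
  calc dist (e.exp ((n : ℝ)⁻¹ • (X + Y)) ^ n) (e.exp Z ^ n)
      ≤ n * dist (e.exp ((n : ℝ)⁻¹ • (X + Y))) (e.exp Z) := hK.dist_pow _ _ _
    _ ≤ n * ‖(n : ℝ)⁻¹ • (X + Y) - Z‖ := by gcongr; exact e.lip _ _
    _ = n * ‖Z - (n : ℝ)⁻¹ • X - (n : ℝ)⁻¹ • Y‖ := by
        rw [smul_add, norm_sub_rev]; congr 2; abel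
    _ ≤ n * (ε * ‖(n : ℝ)⁻¹ • Y‖) := by gcongr
    _ = ε * ‖Y‖ := by
        rw [norm_smul, norm_inv, Real.norm_eq_abs, abs_of_pos hnpos]
        field_simp
    _ ≤ ε * (‖Y‖ + 1) := by gcongr; linarith
    _ = δ := div_mul_cancel₀ _ hY1.ne'

/-- D2 -/
theorem exists_comm_conj [CompactSpace K] (hK : BiInv K) (e : ExpMap K E) (X Y : E) :
    ∃ (k : K) (X' : E), ‖X'‖ = ‖X‖ ∧ (∀ t : ℝ, k * e.exp (t • X) * k⁻¹ = e.exp (t • X')) ∧
      Comm e.toPreExp X' Y := by
  obtain ⟨ρ, hρ, hinj⟩ := e.toPreExp.exists_inj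
  set h : ℝ := ρ / (‖X‖ + ‖Y‖ + 1) with hh
  have hden : 0 < ‖X‖ + ‖Y‖ + 1 := by positivity
  have hpos : 0 < h := div_pos hρ hden
  have hmul : h * (‖X‖ + ‖Y‖ + 1) = ρ := div_mul_cancel₀ _ hden.ne'
  have small : ∀ Z : E, ‖Z‖ ≤ ‖X‖ + ‖Y‖ → ‖h • Z‖ < ρ := by
    intro Z hZ
    rw [norm_smul, Real.norm_eq_abs, abs_of_pos hpos]
    nlinarith
  have hinj' : ∀ Z Z' : E, ‖Z‖ ≤ ‖X‖ + ‖Y‖ → ‖Z'‖ ≤ ‖X‖ + ‖Y‖ →
      e.exp (h • Z) = e.exp (h • Z') → Z = Z' := by
    intro Z Z' hZ hZ' heq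
    have := hinj _ _ (small Z hZ) (small Z' hZ') heq
    exact smul_right_injective E hpos.ne' this
  have hcont : Continuous fun k : K => dist (e.exp (h • Y)) (k * e.exp (h • X) * k⁻¹) :=
    continuous_const.dist (hK.continuous_conj _)
  obtain ⟨k, _, hk⟩ := isCompact_univ.exists_isMinOn (⟨1, mem_univ _⟩ : (univ : Set K).Nonempty)
    hcont.continuousOn
  obtain ⟨X', hX'n, hX'⟩ := e.conj k X
  refine ⟨k, X', hX'n, hX', ?_⟩
  set a := e.exp (h • Y) with ha
  set b := k * e.exp (h • X) * k⁻¹ with hb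
  have hbX : b = e.exp (h • X') := hX' h
  have hmin : ∀ u : K, dist a b ≤ dist a (u * b * u⁻¹) := by
    intro u
    have := hk (mem_univ (u * k))
    simp only [mem_ofPred_eq] at this
    have e1 : u * k * e.exp (h • X) * (u * k)⁻¹ = u * b * u⁻¹ := by rw [hb]; group
    rw [e1] at this
    exact this
  have hab : a * b = b * a := by
    by_cases hl : dist a b = 0
    · rw [dist_eq_zero] at hl; rw [hl]
    · set l := dist a b with hldef
      have hlpos : 0 < l := lt_of_le_of_ne dist_nonneg (Ne.symm hl)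
      obtain ⟨D, hD, hDn⟩ := e.surj (b⁻¹ * a)
      have hDl : ‖D‖ = l := by rw [hDn, ← hK.dist_eq, dist_comm]
      set C : E := l⁻¹ • D with hC
      have hCn : ‖C‖ = 1 := by
        rw [hC, norm_smul, hDl, norm_inv, Real.norm_eq_abs, abs_of_pos hlpos]
        exact inv_mul_cancel₀ hlpos.ne'
      have hlC : l • C = D := by rw [hC, smul_smul, mul_inv_cancel₀ hlpos.ne', one_smul]
      obtain ⟨C', hC'n, hC'⟩ := e.conj b C
      have hcc : C' = C := by
        refine corner hK e.toPreExp (by rw [hC'n, hCn]) hCn (half_pos hlpos) ?_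
        have hu := hmin (e.exp ((l / 2) • C'))
        have e1 : a = b * e.exp ((l / 2) • C) * e.exp ((l / 2) • C) := by
          have : e.exp (l • C) = e.exp ((l / 2) • C) * e.exp ((l / 2) • C) := by
            rw [← e.add]; congr 2; ring
          rw [mul_assoc, ← this, hlC, hD, mul_inv_cancel_left]
        have e2 : e.exp ((l / 2) • C') * b * (e.exp ((l / 2) • C'))⁻¹ =
            b * e.exp ((l / 2) • C) * (e.exp ((l / 2) • C'))⁻¹ := by
          have := hC' (l / 2)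
          rw [← this]; group
        rw [e2, e1, hK.left] at hu
        have e3 : dist (e.exp ((l / 2) • C)) (e.exp ((l / 2) • C'))⁻¹ =
            dist (e.exp ((l / 2) • C') * e.exp ((l / 2) • C)) 1 := by
          rw [← hK.left (e.exp ((l / 2) • C')), mul_inv_cancel]
        rw [e3] at hu
        linarith
      have h1 := hC' l
      rw [hcc, hlC, hD] at h1
      -- b (b⁻¹ a) b⁻¹ = b⁻¹ a
      have h2 : a * b⁻¹ = b⁻¹ * a := by
        rw [← h1]; group
      calc a * b = b * (b⁻¹ * a) * b := by group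
        _ = b * (a * b⁻¹) * b := by rw [h2]
        _ = b * a := by group
  -- b commutes with exp (t Y)
  have hbY : ∀ t : ℝ, b * e.exp (t • Y) * b⁻¹ = e.exp (t • Y) := by
    obtain ⟨Y', hY'n, hY'⟩ := e.conj b Y
    have : Y' = Y := by
      apply hinj' Y' Y (by rw [hY'n]; linarith [norm_nonneg X]) (by linarith [norm_nonneg X])
      rw [← hY' h, ← ha, ← hab]; group
    intro t; rw [hY' t, this]
  intro s t
  obtain ⟨X'', hX''n, hX''⟩ := e.conj (e.exp (t • Y)) X'
  have : X'' = X' := by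
    apply hinj' X'' X' (by rw [hX''n, hX'n]; linarith [norm_nonneg Y])
      (by rw [hX'n]; linarith [norm_nonneg Y])
    rw [← hX'' h, ← hbX]
    have := hbY t
    calc e.exp (t • Y) * b * (e.exp (t • Y))⁻¹
        = (b * e.exp (t • Y) * b⁻¹) * b * (e.exp (t • Y))⁻¹ := by rw [this]
      _ = b := by group
  have h3 := hX'' s
  rw [this] at h3
  calc e.exp (s • X') * e.exp (t • Y)
      = (e.exp (t • Y) * e.exp (s • X') * (e.exp (t • Y))⁻¹) * e.exp (t • Y) := by rw [h3]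
    _ = e.exp (t • Y) * e.exp (s • X') := by group

end D

end Helper99.BQ
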