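import Pool.Agent.Helper82.BQ.D1
import Pool.Agent.Helper82.BQ.D4

/-!
Block D5 of MP_986e36_gt (helper99's project): maximal tori.
-/

open Set Metric Filter Topology

namespace Helper99.BQ

section T
variable {K : Type*} [Group K] [MetricSpace K] {E : Type*} [NormedAddCommGroup E]
  [InnerProductSpace ℝ E]

theorem Comm.symm {e : PreExp K E} {X Y : E} (h : Comm e X Y) : Comm e Y X :=
  fun s t => (h t s).symm

theorem Comm.smul {e : PreExp K E} {X Y : E} (h : Comm e X Y) (a b : ℝ) :
    Comm e (a • X) (b • Y) := by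
  intro s t; rw [smul_smul, smul_smul]; exact h _ _

theorem Comm.add_left (hK : BiInv K) {e : PreExp K E} {X X' Y : E} (hXX' : Comm e X X')
    (h : Comm e X Y) (h' : Comm e X' Y) : Comm e (X + X') Y := by
  intro s t
  rw [smul_add, exp_add_of_comm hK e (hXX'.smul s s)]
  exact Commute.mul_left (h s t) (h' s t)

theorem Comm.of_small (e : ExpMap K E) {ρ : ℝ} (hinj : ∀ X Y : E, ‖X‖ < ρ → ‖Y‖ < ρ →
    e.exp X = e.exp Y → X = Y) {X Y : E} (hX : ‖X‖ < ρ)
    (h : ∀ s : ℝ, e.exp (s • Y) * e.exp X = e.exp X * e.exp (s • Y)) : Comm e.toPreExp X Y := by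
  intro r s
  obtain ⟨X'', hn, hX''⟩ := e.conj (e.exp (s • Y)) X
  have h1 : X'' = X := by
    apply hinj _ _ (by rw [hn]; exact hX) hX
    have := hX'' 1
    rw [one_smul, one_smul] at this
    rw [← this, h s]; group
  have h2 := hX'' r
  rw [h1] at h2
  calc e.exp (r • X) * e.exp (s • Y)
      = (e.exp (s • Y) * e.exp (r • X) * (e.exp (s • Y))⁻¹) * e.exp (s • Y) := by rw [h2]
    _ = e.exp (s • Y) * e.exp (r • X) := by group

/-- D5a: maximal commuting subspace, its lattice is cocompact. -/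
theorem exists_maximal_comm [CompactSpace K] [FiniteDimensional ℝ E] (hK : BiInv K)
    (e : ExpMap K E) :
    ∃ t : Submodule ℝ E, (∀ X ∈ t, ∀ Y ∈ t, Comm e.toPreExp X Y) ∧
      (∀ X : E, (∀ Y ∈ t, Comm e.toPreExp X Y) → X ∈ t) ∧
      ∃ R₀ : ℝ, ∀ Y ∈ t, ∃ l ∈ t, e.exp l = 1 ∧ ‖Y - l‖ ≤ R₀ := by
  set A : Set (Submodule ℝ E) := {t | ∀ X ∈ t, ∀ Y ∈ t, Comm e.toPreExp X Y} with hA
  have hAne : A.Nonempty := by
    refine ⟨⊥, ?_⟩
    intro X hX Y hY
    rw [Submodule.mem_bot] at hX hY
    rw [hX, hY]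
    intro s t
    simp
  obtain ⟨t, htA, htmax⟩ := (wellFounded_gt (α := Submodule ℝ E)).has_min A hAne
  have hmax : ∀ X : E, (∀ Y ∈ t, Comm e.toPreExp X Y) → X ∈ t := by
    intro X hX
    by_contra hXt
    have hself : Comm e.toPreExp X X := by
      intro s r
      rw [← e.add, ← e.add, add_comm]
    have hmem : t ⊔ Submodule.span ℝ {X} ∈ A := by
      intro Z hZ Z' hZ'
      obtain ⟨Y, hY, W, hW, rfl⟩ := Submodule.mem_sup.1 hZ
      obtain ⟨Y', hY', W', hW', rfl⟩ := Submodule.mem_sup.1 hZ'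
      obtain ⟨c, rfl⟩ := Submodule.mem_span_singleton.1 hW
      obtain ⟨c', rfl⟩ := Submodule.mem_span_singleton.1 hW'
      have one : ∀ {U V : E}, Comm e.toPreExp U V → ∀ c : ℝ, Comm e.toPreExp U (c • V) := by
        intro U V h c
        have := h.smul 1 c
        rwa [one_smul] at this
      have k1 : Comm e.toPreExp Y (c • X) := one (hX Y hY).symm c
      have k2 : Comm e.toPreExp Y' (c' • X) := one (hX Y' hY').symm c'
      have k3 : Comm e.toPreExp Y (Y' + c' • X) :=
        (Comm.add_left hK k2 (htA Y' hY' Y hY) (one (hX Y hY).symm c').symm).symm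
      have k4 : Comm e.toPreExp (c • X) (Y' + c' • X) :=
        (Comm.add_left hK k2 (one (hX Y' hY').symm c) (hself.smul c' c)).symm
      exact Comm.add_left hK k1 k3 k4
    have hlt : t < t ⊔ Submodule.span ℝ {X} := by
      refine lt_of_le_of_ne le_sup_left ?_
      intro heq
      apply hXt
      rw [heq]
      exact Submodule.mem_sup_right (Submodule.mem_span_singleton_self X)
    exact htmax _ hmem hlt
  refine ⟨t, htA, hmax, ?_⟩
  have hadd : ∀ X ∈ t, ∀ Y ∈ t, e.exp (X + Y) = e.exp X * e.exp Y := fun X hX Y hY =>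
    exp_add_of_comm hK e.toPreExp (htA X hX Y hY)
  obtain ⟨ρ, hρ, hinj⟩ := e.toPreExp.exists_inj
  -- small elements of `exp t` are exponentials of small elements of `t`
  have hsmall : ∀ U ∈ t, dist 1 (e.exp U) < ρ → ∃ X ∈ t, e.exp X = e.exp U ∧ ‖X‖ < ρ := by
    intro U hU hd
    obtain ⟨X, hX, hXn⟩ := e.surj (e.exp U)
    refine ⟨X, hmax X fun Y hY => ?_, hX, by rw [hXn]; exact hd⟩
    apply Comm.of_small e hinj (by rw [hXn]; exact hd)
    intro s
    rw [hX]
    have := htA Y hY U hU s 1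
    rwa [one_smul] at this
  have htb : TotallyBounded (e.exp '' (t : Set E)) :=
    (isCompact_univ : IsCompact (univ : Set K)).totallyBounded.subset (subset_univ _)
  obtain ⟨F, hFsub, hFfin, hFcov⟩ := Metric.finite_approx_of_totallyBounded htb ρ hρ
  have hF' : ∀ y ∈ F, ∃ g : E, g ∈ t ∧ e.exp g = y := fun y hy => hFsub hy
  choose! G hG1 hG2 using hF'
  obtain ⟨M, hM⟩ : ∃ M : ℝ, ∀ y ∈ F, ‖G y‖ ≤ M := by
    obtain ⟨M, hM⟩ := (hFfin.image fun y => ‖G y‖).bddAbove
    exact ⟨M, fun y hy => hM (mem_image_of_mem _ hy)⟩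
  refine ⟨M + ρ, fun Y hY => ?_⟩
  obtain ⟨y, hyF, hy⟩ := mem_iUnion₂.1 (hFcov (mem_image_of_mem _ hY))
  have hGt : G y ∈ t := hG1 y hyF
  have hGy : e.exp (G y) = y := hG2 y hyF
  have e1 : e.exp (Y - G y) = y⁻¹ * e.exp Y := by
    have h1 := hadd (-G y) (t.neg_mem hGt) Y hY
    rw [e.toPreExp.exp_neg, hGy] at h1
    rw [← h1]; congr 1; abel
  obtain ⟨X, hXt, hX, hXn⟩ := hsmall (Y - G y) (t.sub_mem hY hGt) (by
    rw [e1, ← hK.dist_eq]
    rw [mem_ball, dist_comm] at hy
    exact hy)
  refine ⟨Y - (G y + X), t.sub_mem hY (t.add_mem hGt hXt), ?_, ?_⟩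
  · have h2 : e.exp (Y - (G y + X)) = e.exp (Y - G y) * (e.exp X)⁻¹ := by
      rw [← e.toPreExp.exp_neg, ← hadd _ (t.sub_mem hY hGt) _ (t.neg_mem hXt)]
      congr 1; abel
    rw [h2, hX, mul_inv_cancel]
  · have h3 : Y - (Y - (G y + X)) = G y + X := by abel
    rw [h3]
    calc ‖G y + X‖ ≤ ‖G y‖ + ‖X‖ := norm_add_le _ _
      _ ≤ M + ρ := add_le_add (hM y hyF) hXn.le

/-- D5b: maximal torus (uses D2, D3, D4, D5a). -/
theorem exists_torus [CompactSpace K] [FiniteDimensional ℝ E] (hK : BiInv K)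
    (e : ExpMap K E) : Nonempty (Torus e.toPreExp) := by
  obtain ⟨t, hcomm, hmax, R₀, hcoc⟩ := exists_maximal_comm hK e
  have hadd : ∀ X ∈ t, ∀ Y ∈ t, e.exp (X + Y) = e.exp X * e.exp Y := fun X hX Y hY =>
    exp_add_of_comm hK e.toPreExp (hcomm X hX Y hY)
  obtain ⟨ρ, hρ, hinj⟩ := e.toPreExp.exists_inj
  have hcontexp : Continuous e.exp := by
    have : LipschitzWith 1 e.exp := by
      apply LipschitzWith.of_dist_le_mul
      intro X Y
      rw [dist_eq_norm]
      simpa using e.lip X Y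
    exact this.continuous
  -- the lattice
  let L : AddSubgroup t :=
    { carrier := {l | e.exp (l : E) = 1}
      add_mem' := by
        intro a b ha hb
        simp only [mem_ofPred_eq] at ha hb ⊢
        rw [Submodule.coe_add, hadd _ a.2 _ b.2, ha, hb, one_mul]
      zero_mem' := by
        simp only [mem_ofPred_eq]
        rw [Submodule.coe_zero, e.toPreExp.exp_zero]
      neg_mem' := by
        intro a ha
        simp only [mem_ofPred_eq] at ha ⊢
        rw [Submodule.coe_neg, e.toPreExp.exp_neg, ha, inv_one] }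
  have hLmem : ∀ l : t, l ∈ L ↔ e.exp (l : E) = 1 := fun l => Iff.rfl
  have hLcoc : ∀ x : t, ∃ l ∈ L, ‖x - l‖ ≤ R₀ := by
    intro x
    obtain ⟨l, hl, hl1, hln⟩ := hcoc x x.2
    exact ⟨⟨l, hl⟩, hl1, hln⟩
  have hLsep : ∀ l ∈ L, ∀ l' ∈ L, l ≠ l' → ρ ≤ dist l l' := by
    intro l hl l' hl' hne
    by_contra hlt
    push Not at hlt
    apply hne
    rw [dist_eq_norm] at hlt
    have h1 : l - l' ∈ L := L.sub_mem hl hl'
    have h2 : ((l - l' : t) : E) = 0 := by
      apply hinj _ _ (by simpa using hlt) (by simpa using hρ)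
      rw [e.toPreExp.exp_zero]; exact h1
    have h3 : l - l' = 0 := by
      apply Subtype.ext; rw [h2]; rfl
    exact sub_eq_zero.1 h3
  have hLc : (L : Set t).Countable := by
    apply Set.PairwiseDisjoint.countable_of_isOpen (s := fun l : t => ball l (ρ / 2))
    · intro l hl l' hl' hne
      apply ball_disjoint_ball
      have := hLsep l hl l' hl' hne
      linarith
    · intro l _; exact isOpen_ball
    · intro l _; exact ⟨l, mem_ball_self (half_pos hρ)⟩
  obtain ⟨V, hVc, hV⟩ := exists_linear_parts L hLcoc hLc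
  let S : t → AddSubgroup t := fun Y =>
    ((Submodule.span ℝ {Y}).toAddSubgroup ⊔ L).topologicalClosure
  -- a generic direction
  obtain ⟨Y, hY⟩ : ∃ Y : t, ∀ Z : t, Z ∈ S Y := by
    by_contra hcon
    push Not at hcon
    obtain ⟨x, hx⟩ := not_countable_union {P ∈ V | P ≠ ⊤} (hVc.mono fun P hP => hP.1)
      (fun P hP => hP.2)
    obtain ⟨P, hPV, hP, -⟩ := hV (S x) (AddSubgroup.isClosed_topologicalClosure _)
      (le_sup_right.trans (AddSubgroup.le_topologicalClosure _))
    have hPtop : P ≠ ⊤ := by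
      intro hPt
      obtain ⟨Z, hZ⟩ := hcon x
      apply hZ
      have : Z ∈ P := by rw [hPt]; exact Submodule.mem_top
      have := (hP Z).1 this 1
      rwa [one_smul] at this
    apply hx P ⟨hPV, hPtop⟩
    rw [hP]
    intro s
    apply AddSubgroup.le_topologicalClosure
    exact AddSubgroup.mem_sup_left (Submodule.smul_mem _ _ (Submodule.mem_span_singleton_self x))
  refine ⟨⟨t, hadd, ⟨R₀, hcoc⟩, ?_⟩⟩
  intro X
  obtain ⟨k, X', hX'n, hX', hXY⟩ := exists_comm_conj hK e X (Y : E)
  refine ⟨k, X', ?_, hX'n, ?_⟩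
  · apply hmax
    -- `exp (s X')` commutes with `exp Z` for all `Z ∈ t`
    have key : ∀ (s : ℝ) (Z : t), e.exp (s • X') * e.exp (Z : E) =
        e.exp (Z : E) * e.exp (s • X') := by
      intro s Z
      have hcl : IsClosed {Z : t | e.exp (s • X') * e.exp (Z : E) =
          e.exp (Z : E) * e.exp (s • X')} := by
        have hc1 : Continuous fun Z : t => e.exp (Z : E) :=
          hcontexp.comp continuous_subtype_val
        have hl : Continuous fun y : K => e.exp (s • X') * y := by
          have : LipschitzWith 1 fun y : K => e.exp (s • X') * y := by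
            apply LipschitzWith.of_dist_le_mul
            intro x y
            rw [hK.left]; simp
          exact this.continuous
        have hr : Continuous fun y : K => y * e.exp (s • X') := by
          have : LipschitzWith 1 fun y : K => y * e.exp (s • X') := by
            apply LipschitzWith.of_dist_le_mul
            intro x y
            rw [hK.right]; simp
          exact this.continuous
        exact isClosed_eq (hl.comp hc1) (hr.comp hc1)
      have hsub : (((Submodule.span ℝ {Y}).toAddSubgroup ⊔ L : AddSubgroup t) : Set t) ⊆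
          {Z : t | e.exp (s • X') * e.exp (Z : E) = e.exp (Z : E) * e.exp (s • X')} := by
        intro Z hZ
        obtain ⟨A, hA, l, hl, rfl⟩ := AddSubgroup.mem_sup.1 hZ
        obtain ⟨c, rfl⟩ := Submodule.mem_span_singleton.1 hA
        simp only [mem_ofPred_eq]
        have hl1 : e.exp (l : E) = 1 := hl
        rw [Submodule.coe_add, hadd _ (c • Y).2 _ l.2, hl1, mul_one, Submodule.coe_smul]
        exact hXY s c
      have := closure_minimal hsub hcl
      exact this (hY Z)
    intro Z hZ s r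
    have := key s (r • ⟨Z, hZ⟩)
    rwa [Submodule.coe_smul] at this
  · intro s
    rw [← hX' s]; group

end T

end Helper99.BQ
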